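import Mathlib

set_option autoImplicit false

/-!
The pair (Prod, Exp) has the Ramsey property.

Proof by ultrafilter algebra on the affine semigroup `(b, m) * (b', m') = (b + 2 ^ m * b', m + m')`.
-/

open Filter

namespace Pool.Agent.MPdb9276

attribute [local instance] Ultrafilter.semigroup Ultrafilter.addSemigroup

/-- The affine semigroup: `(b, m)` stands for the map `y ↦ b + 2 ^ m * y`. -/
@[ext] structure P where
  b : ℕ
  m : ℕ

instance : Semigroup P where
  mul x y := ⟨x.b + 2 ^ x.m * y.b, x.m + y.m⟩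
  mul_assoc x y z := by
    ext
    · change x.b + 2 ^ x.m * y.b + 2 ^ (x.m + y.m) * z.b = x.b + 2 ^ x.m * (y.b + 2 ^ y.m * z.b)
      ring
    · change x.m + y.m + z.m = x.m + (y.m + z.m)
      ring

theorem mul_b (x y : P) : (x * y).b = x.b + 2 ^ x.m * y.b := rfl
theorem mul_m (x y : P) : (x * y).m = x.m + y.m := rfl

/-- A set containing arbitrarily long arithmetic progressions. -/
def APRich (A : Set ℕ) : Prop := ∀ L : ℕ, ∃ m b : ℕ, 0 < b ∧ ∀ t ≤ L, m + t * b ∈ A

theorem APRich.mono {A B : Set ℕ} (h : APRich A) (hAB : A ⊆ B) : APRich B := by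
  intro L
  obtain ⟨m, b, hb, h⟩ := h L
  exact ⟨m, b, hb, fun t ht => hAB (h t ht)⟩

/-- van der Waerden: an ultrafilter all of whose members contain arbitrarily long progressions. -/
theorem exists_ultrafilter_APRich : ∃ q : Ultrafilter ℕ, ∀ A ∈ q, APRich A := by
  classical
  obtain ⟨q, hq⟩ := Ultrafilter.exists_ultrafilter_of_finite_inter_nonempty
    {s : Set ℕ | ¬ APRich sᶜ} (by
      intro T hT
      by_contra hne
      rw [Set.not_nonempty_iff_eq_empty] at hne
      have h1 : ∀ x : ℕ, ∃ s : T, x ∉ (s : Set ℕ) := by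
        intro x
        by_contra hx
        push Not at hx
        have : x ∈ ⋂₀ (T : Set (Set ℕ)) := by
          intro s hs
          exact hx ⟨s, hs⟩
        rw [hne] at this
        exact this
      choose C hC using h1
      have h2 : ∀ s : T, ∃ L : ℕ, ∀ m b : ℕ, 0 < b → ∃ t ≤ L, m + t * b ∈ (s : Set ℕ) := by
        intro s
        have := hT s.2
        simp only [APRich, Set.mem_ofPred_eq] at this
        push Not at this
        obtain ⟨L, hL⟩ := this
        refine ⟨L, fun m b hb => ?_⟩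
        obtain ⟨t, ht, h⟩ := hL m b hb
        exact ⟨t, ht, by simpa using h⟩
      choose L hL using h2
      obtain ⟨a, ha, b, c, hc⟩ := Combinatorics.exists_mono_homothetic_copy
        (Finset.range (Finset.univ.sup L + 1)) C
      obtain ⟨t, ht, hmem⟩ := hL c b a ha
      have h3 : t ∈ Finset.range (Finset.univ.sup L + 1) := by
        rw [Finset.mem_range]
        have : L c ≤ Finset.univ.sup L := Finset.le_sup (Finset.mem_univ c)
        omega
      have h4 := hc t h3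
      have h5 := hC (a • t + b)
      rw [h4] at h5
      apply h5
      have : a • t + b = b + t * a := by
        simp only [smul_eq_mul]; ring
      rw [this]
      exact hmem)
  refine ⟨q, fun A hA => ?_⟩
  by_contra hnot
  have : Aᶜ ∈ q := hq (by simpa using hnot)
  exact (Ultrafilter.compl_notMem_iff.2 hA) this

/-- An idempotent ultrafilter all of whose members contain arbitrarily long progressions. -/
theorem exists_idem_APRich : ∃ p : Ultrafilter ℕ, p + p = p ∧ ∀ A ∈ p, APRich A := by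
  obtain ⟨p, hp, hpp⟩ := exists_idempotent_in_compact_add_subsemigroup
    (M := Ultrafilter ℕ) Ultrafilter.continuous_add_left
    {q : Ultrafilter ℕ | ∀ A ∈ q, APRich A} exists_ultrafilter_APRich (by
      apply IsClosed.isCompact
      have : {q : Ultrafilter ℕ | ∀ A ∈ q, APRich A} =
          ⋂ A : Set ℕ, ⋂ _ : ¬ APRich A, {q : Ultrafilter ℕ | Aᶜ ∈ q} := by
        ext q
        simp only [Set.mem_ofPred_eq, Set.mem_iInter, Ultrafilter.compl_mem_iff_notMem]
        exact ⟨fun h A hA hq => hA (h A hq), fun h A hq => by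
          by_contra hA
          exact h A hA hq⟩
      rw [this]
      exact isClosed_iInter fun A => isClosed_iInter fun _ => ultrafilter_isClosed_basic _)
    (by
      intro x _ y hy A hA
      have h1 : ∀ᶠ m in x, ∀ᶠ m' in y, m + m' ∈ A := hA
      obtain ⟨a, ha⟩ := h1.exists
      have h2 := hy {m' | a + m' ∈ A} ha
      intro L
      obtain ⟨m, b, hb, h⟩ := h2 L
      refine ⟨a + m, b, hb, fun t ht => ?_⟩
      have := h t ht
      rw [Set.mem_ofPred_eq, ← add_assoc] at this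
      exact this)
  exact ⟨p, hpp, hp⟩

/-- The closed subsemigroup of ultrafilters all of whose images under `m + t b` are `p`. -/
def V (p : Ultrafilter ℕ) : Set (Ultrafilter P) :=
  {θ | ∀ t : ℕ, ∀ A ∈ p, ∀ᶠ x in (θ : Filter P), x.m + t * x.b ∈ A}

/-- The ideal of `V p` where the translation part is nonzero. -/
def Vp (p : Ultrafilter ℕ) : Set (Ultrafilter P) :=
  {θ | θ ∈ V p ∧ ∀ᶠ x in (θ : Filter P), 0 < x.b}

theorem isClosed_V (p : Ultrafilter ℕ) : IsClosed (V p) := by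
  have : V p = ⋂ t : ℕ, ⋂ A : Set ℕ, ⋂ _ : A ∈ p,
      {θ : Ultrafilter P | {x : P | x.m + t * x.b ∈ A} ∈ θ} := by
    ext θ
    simp only [V, Set.mem_ofPred_eq, Set.mem_iInter]
    rfl
  rw [this]
  exact isClosed_iInter fun _ => isClosed_iInter fun _ => isClosed_iInter fun _ =>
    ultrafilter_isClosed_basic _

theorem isClosed_Vp (p : Ultrafilter ℕ) : IsClosed (Vp p) := by
  have : Vp p = V p ∩ {θ : Ultrafilter P | {x : P | 0 < x.b} ∈ θ} := by
    ext θ
    simp only [Vp, Set.mem_ofPred_eq, Set.mem_inter_iff]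
    rfl
  rw [this]
  exact (isClosed_V p).inter (ultrafilter_isClosed_basic _)

theorem V_mul {p : Ultrafilter ℕ} (hp : p + p = p) {θ θ' : Ultrafilter P} (h : θ ∈ V p)
    (h' : θ' ∈ V p) : θ * θ' ∈ V p := by
  intro t A hA
  rw [Ultrafilter.eventually_mul]
  have h1 : {a : ℕ | ∀ᶠ x in (p : Filter ℕ), a + x ∈ A} ∈ p := by
    rw [← hp] at hA
    exact hA
  filter_upwards [h t _ h1] with g hg
  filter_upwards [h' (t * 2 ^ g.m) _ hg] with k hk
  have : (g * k).m + t * (g * k).b = g.m + t * g.b + (k.m + t * 2 ^ g.m * k.b) := by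
    rw [mul_m, mul_b]; ring
  rw [this]
  exact hk

theorem Vp_mul_left {p : Ultrafilter ℕ} (hp : p + p = p) {θ θ' : Ultrafilter P} (h : θ ∈ Vp p)
    (h' : θ' ∈ V p) : θ * θ' ∈ Vp p := by
  refine ⟨V_mul hp h.1 h', ?_⟩
  rw [Ultrafilter.eventually_mul]
  filter_upwards [h.2] with g hg
  refine Eventually.of_forall fun k => ?_
  rw [mul_b]; omega

theorem Vp_mul_right {p : Ultrafilter ℕ} (hp : p + p = p) {θ θ' : Ultrafilter P} (h : θ ∈ V p)
    (h' : θ' ∈ Vp p) : θ * θ' ∈ Vp p := by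
  refine ⟨V_mul hp h h'.1, ?_⟩
  rw [Ultrafilter.eventually_mul]
  refine Eventually.of_forall fun g => ?_
  filter_upwards [h'.2] with k hk
  rw [mul_b]
  positivity

theorem Vp_nonempty {p : Ultrafilter ℕ} (hA : ∀ A ∈ p, APRich A) : (Vp p).Nonempty := by
  let F : Filter P :=
    { sets := {D | ∃ A ∈ p, ∃ L : ℕ, ∀ x : P, 0 < x.b → (∀ t ≤ L, x.m + t * x.b ∈ A) → x ∈ D}
      univ_sets := ⟨Set.univ, univ_mem, 0, fun _ _ _ => Set.mem_univ _⟩
      sets_of_superset := by
        rintro D D' ⟨A, hAp, L, h⟩ hsub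
        exact ⟨A, hAp, L, fun x hx hx' => hsub (h x hx hx')⟩
      inter_sets := by
        rintro D D' ⟨A, hAp, L, h⟩ ⟨A', hAp', L', h'⟩
        refine ⟨A ∩ A', inter_mem hAp hAp', max L L', fun x hx hx' => ⟨?_, ?_⟩⟩
        · exact h x hx fun t ht => (hx' t (le_trans ht (le_max_left _ _))).1
        · exact h' x hx fun t ht => (hx' t (le_trans ht (le_max_right _ _))).2 }
  have hF : F.NeBot := by
    rw [neBot_iff]
    intro hbot
    have : (∅ : Set P) ∈ F := by rw [hbot]; exact mem_bot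
    obtain ⟨A, hAp, L, h⟩ := this
    obtain ⟨m, b, hb, h2⟩ := hA A hAp L
    exact h ⟨b, m⟩ hb h2
  refine ⟨Ultrafilter.of F, ?_, ?_⟩
  · intro t A hAp
    have : {x : P | x.m + t * x.b ∈ A} ∈ F := ⟨A, hAp, t, fun x _ hx' => hx' t le_rfl⟩
    exact (Ultrafilter.of_le F) this
  · have : {x : P | 0 < x.b} ∈ F := ⟨Set.univ, univ_mem, 0, fun x hx _ => hx⟩
    exact (Ultrafilter.of_le F) this

/-- The embedding of `p` as pure dilations. -/
noncomputable def hat (p : Ultrafilter ℕ) : Ultrafilter P := p.map fun e => (⟨0, e⟩ : P)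

theorem eventually_hat (p : Ultrafilter ℕ) (Q : P → Prop) :
    (∀ᶠ x in (hat p : Filter P), Q x) ↔ ∀ᶠ e in (p : Filter ℕ), Q ⟨0, e⟩ := Iff.rfl

theorem hat_mem_V (p : Ultrafilter ℕ) : hat p ∈ V p := by
  intro t A hA
  rw [eventually_hat]
  have : ∀ᶠ e in (p : Filter ℕ), e ∈ A := hA
  simpa using this

theorem hat_mul_hat {p : Ultrafilter ℕ} (hp : p + p = p) : hat p * hat p = hat p := by
  apply Ultrafilter.coe_inj.mp
  apply Filter.ext'
  intro Q
  rw [Ultrafilter.eventually_mul, eventually_hat, eventually_hat]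
  have h : ∀ e : ℕ, (∀ᶠ m' in (hat p : Filter P), Q (⟨0, e⟩ * m')) ↔
      ∀ᶠ e' in (p : Filter ℕ), Q ⟨0, e + e'⟩ := by
    intro e
    rw [eventually_hat]
    have : ∀ e' : ℕ, (⟨0, e⟩ : P) * ⟨0, e'⟩ = ⟨0, e + e'⟩ := by
      intro e'
      ext
      · rw [mul_b]; simp
      · rw [mul_m]
    simp only [this]
  simp only [h]
  conv_rhs => rw [← hp]
  rw [Ultrafilter.eventually_add]

/-- The key ultrafilter. -/
theorem exists_theta {p : Ultrafilter ℕ} (hp : p + p = p) (hA : ∀ A ∈ p, APRich A) :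
    ∃ θ ∈ Vp p, θ * θ = θ ∧ hat p * θ = θ := by
  obtain ⟨f, ⟨θ₁, hθ₁, rfl⟩, hff⟩ := exists_idempotent_in_compact_subsemigroup
    (M := Ultrafilter P) Ultrafilter.continuous_mul_left
    ((fun θ => θ * hat p) '' Vp p) ((Vp_nonempty hA).image _)
    ((isClosed_Vp p).isCompact.image (Ultrafilter.continuous_mul_left (hat p))) (by
      rintro _ ⟨x, hx, rfl⟩ _ ⟨y, hy, rfl⟩
      refine ⟨x * hat p * y, ?_, ?_⟩
      · exact Vp_mul_left hp (Vp_mul_left hp hx (hat_mem_V p)) hy.1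
      · simp only [mul_assoc])
  set f : Ultrafilter P := θ₁ * hat p with hf
  have h1 : f * hat p = f := by rw [hf, mul_assoc, hat_mul_hat hp]
  refine ⟨hat p * f, Vp_mul_right hp (hat_mem_V p) (Vp_mul_left hp hθ₁ (hat_mem_V p)), ?_, ?_⟩
  · have hff' : f * f = f := hff
    calc hat p * f * (hat p * f) = hat p * (f * hat p * f) := by simp only [mul_assoc]
      _ = hat p * f := by rw [h1, hff']
  · rw [← mul_assoc, hat_mul_hat hp]

/-- The combinatorial data extracted from the ultrafilter algebra. -/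
theorem exists_data : ∃ (p : Ultrafilter ℕ) (θ : Ultrafilter P) (u : Ultrafilter ℕ),
    (∀ t : ℕ, ∀ A ∈ p, ∀ᶠ x in (θ : Filter P), x.m + t * x.b ∈ A) ∧
    (∀ A ∈ u, ∀ᶠ x in (θ : Filter P), x.b ∈ A) ∧
    (∀ A ∈ u, ∀ᶠ e in (p : Filter ℕ), ∀ᶠ y in (u : Filter ℕ), 2 ^ e * y ∈ A) ∧
    (∀ A ∈ u, ∀ᶠ x in (θ : Filter P), ∀ᶠ y in (u : Filter ℕ), x.b + 2 ^ x.m * y ∈ A) ∧
    (∀ N : ℕ, ∀ᶠ y in (u : Filter ℕ), N < y) := by
  obtain ⟨p, hp, hA⟩ := exists_idem_APRich
  obtain ⟨θ, hθ, hθθ, hpθ⟩ := exists_theta hp hA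
  have hii : ∀ A ∈ θ.map P.b, ∀ᶠ x in (θ : Filter P), ∀ᶠ y in (θ.map P.b : Filter ℕ),
      x.b + 2 ^ x.m * y ∈ A := by
    intro A hAu
    have h : ∀ᶠ x in (θ : Filter P), x.b ∈ A := hAu
    rw [← hθθ, Ultrafilter.eventually_mul] at h
    filter_upwards [h] with g hg
    exact hg
  refine ⟨p, θ, θ.map P.b, hθ.1, fun A h => h, ?_, hii, ?_⟩
  · intro A hAu
    have h : ∀ᶠ x in (θ : Filter P), x.b ∈ A := hAu
    rw [← hpθ, Ultrafilter.eventually_mul, eventually_hat] at h
    filter_upwards [h] with e he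
    have h2 : ∀ᶠ y in (θ : Filter P), 2 ^ e * y.b ∈ A := by
      filter_upwards [he] with k hk
      rw [mul_b] at hk
      simpa using hk
    exact h2
  · intro N
    induction N with
    | zero => exact hθ.2
    | succ N ih =>
      by_contra hcon
      rw [← Ultrafilter.eventually_not] at hcon
      have h1 : ∀ᶠ y in (θ.map P.b : Filter ℕ), y = N + 1 := by
        filter_upwards [ih, hcon] with y h1 h2
        omega
      have h2 := hii {y | y = N + 1} h1
      obtain ⟨g, hg, hg2⟩ := (h2.and hθ.2).exists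
      obtain ⟨y, hy, hy2⟩ := (hg.and h1).exists
      simp only [Set.mem_ofPred_eq] at hy
      have : y ≤ 2 ^ g.m * y := Nat.le_mul_of_pos_left y (by positivity)
      omega

/-- A finite colouring is constant on a member of an ultrafilter. -/
theorem exists_color {k : ℕ} (u : Ultrafilter ℕ) (f : ℕ → Fin k) :
    ∃ j, ∀ᶠ y in (u : Filter ℕ), f y = j := by
  have h : ∀ᶠ y in (u : Filter ℕ), ∃ j, f y = j := Eventually.of_forall fun y => ⟨f y, rfl⟩
  rwa [Ultrafilter.eventually_exists_iff] at h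

/-- The additive form: `b n + b m` and `2 ^ b n * b m` have the same colour for `n < m`. -/
theorem exists_seq {k : ℕ} (ψ : ℕ → Fin k) : ∃ (b : ℕ → ℕ) (j : ℕ → Fin k),
    (∀ n m, n < m → b n < b m) ∧
    ∀ n m, n < m → ψ (b n + b m) = j n ∧ ψ (2 ^ b n * b m) = j n := by
  obtain ⟨p, θ, u, hV, hπ, hi, hii, hN⟩ := exists_data
  have step : ∀ q : {q : ℕ × Set ℕ // ∀ᶠ y in (u : Filter ℕ), 2 ^ q.1 * y ∈ q.2},
      ∃ (b : ℕ) (q' : {q : ℕ × Set ℕ // ∀ᶠ y in (u : Filter ℕ), 2 ^ q.1 * y ∈ q.2}) (j : Fin k),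
        b ∈ q.1.2 ∧ q'.1.2 ⊆ q.1.2 ∧
        ∀ z ∈ q'.1.2, b < z ∧ ψ (b + z) = j ∧ ψ (2 ^ b * z) = j := by
    rintro ⟨⟨s, Y⟩, hY⟩
    simp only at hY
    obtain ⟨j, hj⟩ := exists_color u fun y => ψ (2 ^ s * y)
    -- (1)
    have h1 : ∀ᶠ x in (θ : Filter P), 2 ^ s * x.b ∈ Y := hπ {y | 2 ^ s * y ∈ Y} hY
    -- (2)
    have h2 : ∀ᶠ x in (θ : Filter P), ∀ᶠ y in (u : Filter ℕ), 2 ^ (s + x.m) * y ∈ Y := by
      have h := hV 0 _ (hi {y | 2 ^ s * y ∈ Y} hY)
      filter_upwards [h] with x hx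
      simp only [zero_mul, add_zero] at hx
      filter_upwards [hx] with y hy
      rw [pow_add, mul_assoc]; exact hy
    -- (3)
    have h3 : ∀ᶠ x in (θ : Filter P), ∀ᶠ y in (u : Filter ℕ),
        ψ (2 ^ s * x.b + 2 ^ (s + x.m) * y) = j := by
      filter_upwards [hii {y | ψ (2 ^ s * y) = j} hj] with x hx
      filter_upwards [hx] with y hy
      rw [← hy]
      congr 1
      ring
    -- (4)
    have h4 : ∀ᶠ x in (θ : Filter P), ∀ᶠ y in (u : Filter ℕ),
        ψ (2 ^ (2 ^ s * x.b) * (2 ^ (s + x.m) * y)) = j := by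
      have h := hV (2 ^ s) _ (hi {y | ψ (2 ^ s * y) = j} hj)
      filter_upwards [h] with x hx
      filter_upwards [hx] with y hy
      rw [← hy]
      congr 1
      ring
    obtain ⟨x, hx1, hx2, hx3, hx4⟩ := (h1.and (h2.and (h3.and h4))).exists
    refine ⟨2 ^ s * x.b, ⟨⟨s + x.m, {z | z ∈ Y ∧ 2 ^ s * x.b < z ∧ ψ (2 ^ s * x.b + z) = j ∧
      ψ (2 ^ (2 ^ s * x.b) * z) = j}⟩, ?_⟩, j, hx1, fun z hz => hz.1, fun z hz => hz.2⟩
    simp only [Set.mem_ofPred_eq]
    filter_upwards [hx2, hx3, hx4, hN (2 ^ s * x.b)] with y e2 e3 e4 e5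
    refine ⟨e2, lt_of_lt_of_le e5 (Nat.le_mul_of_pos_left y (by positivity)), e3, e4⟩
  choose B N J hB hsub hprop using step
  let st : ℕ → {q : ℕ × Set ℕ // ∀ᶠ y in (u : Filter ℕ), 2 ^ q.1 * y ∈ q.2} := fun n =>
    Nat.rec ⟨(0, Set.univ), Eventually.of_forall fun _ => Set.mem_univ _⟩ (fun _ q => N q) n
  have hst : ∀ n, st (n + 1) = N (st n) := fun n => rfl
  have hanti : ∀ n m, n ≤ m → (st m).1.2 ⊆ (st n).1.2 := by
    intro n m hnm
    induction m, hnm using Nat.le_induction with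
    | base => exact subset_rfl
    | succ m _ ih =>
      rw [hst]
      exact (hsub (st m)).trans ih
  have hmem : ∀ n m, n < m → B (st m) ∈ (N (st n)).1.2 := by
    intro n m hnm
    rw [← hst]
    exact hanti (n + 1) m hnm (hB (st m))
  refine ⟨fun n => B (st n), fun n => J (st n), ?_, ?_⟩
  · intro n m hnm
    exact (hprop (st n) _ (hmem n m hnm)).1
  · intro n m hnm
    exact (hprop (st n) _ (hmem n m hnm)).2

/-- The pair (Prod, Exp) has the Ramsey property. -/
theorem main (k : ℕ) (c : ℕ → Fin k) : ∃ a : ℕ → ℕ, StrictMono a ∧ 0 < a 0 ∧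
      ∃ i : Fin k, ∀ n m : ℕ, n < m → c (a n * a m) = i ∧ c (a m ^ a n) = i := by
  obtain ⟨b, j, hb, hj⟩ := exists_seq fun x => c (2 ^ x)
  obtain ⟨i, hi⟩ := Finite.exists_infinite_fiber j
  have hinf : (j ⁻¹' {i}).Infinite := Set.infinite_coe_iff.1 hi
  obtain ⟨φ, hφ, hφi⟩ := Nat.exists_strictMono_subsequence (P := fun n => j n = i)
    (fun N => by
      obtain ⟨n, hn, hn2⟩ := hinf.exists_gt N
      exact ⟨n, hn2, hn⟩)
  refine ⟨fun n => 2 ^ b (φ n), ?_, by positivity, i, ?_⟩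
  · intro n m hnm
    exact Nat.pow_lt_pow_right (by norm_num) (hb _ _ (hφ hnm))
  · intro n m hnm
    obtain ⟨h1, h2⟩ := hj _ _ (hφ hnm)
    rw [hφi] at h1 h2
    refine ⟨?_, ?_⟩
    · rw [← h1, ← pow_add]
    · rw [← h2, ← pow_mul, mul_comm]

end Pool.Agent.MPdb9276
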